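import Mathlib

/-!
# Density in the coordinate directions

Almost every point `p` of a closed subset `A` of the plane is, on the vertical line through `p`, a
point of density of `A`; and the same for horizontal lines. We use this in the form that all
comparatively long intervals close to `p` contain points of `A`.
-/

set_option autoImplicit false

open Set Filter Topology MeasureTheory Metric
open scoped ENNReal

namespace Pool.Agent.K6.H11.GL

/-- Long intervals close to `x` contain points of `S`. -/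
def Thick (S : Set ℝ) (x : ℝ) : Prop :=
  ∀ ε : ℝ, 0 < ε → ∃ r₀ : ℝ, 0 < r₀ ∧ ∀ r : ℝ, 0 < r → r < r₀ → ∀ a b : ℝ, x - r ≤ a → b ≤ x + r →
    ε * r < b - a → ∃ t ∈ Ioo a b, t ∈ S

/-- the scales -/
noncomputable def rr (n : ℕ) : ℝ := 1 / ((n : ℝ) + 1)

lemma rr_pos (n : ℕ) : 0 < rr n := by unfold rr; positivity

lemma rr_lim : Tendsto rr atTop (𝓝[>] 0) := by
  rw [tendsto_nhdsWithin_iff]
  exact ⟨tendsto_one_div_add_atTop_nhds_zero_nat, Eventually.of_forall rr_pos⟩

/-- density along the scales -/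
def Dens (S : Set ℝ) (x : ℝ) : Prop :=
  Tendsto (fun n => volume (S ∩ closedBall x (rr n)) / volume (closedBall x (rr n))) atTop (𝓝 1)

lemma ae_dens (S : Set ℝ) : ∀ᵐ x ∂volume.restrict S, Dens S x := by
  filter_upwards [Besicovitch.ae_tendsto_measure_inter_div (volume : Measure ℝ) S] with x hx
  exact hx.comp rr_lim

lemma thick_of_dens {S : Set ℝ} {x : ℝ} (h : Dens S x) : Thick S x := by
  intro ε hε
  have h1 : ∀ᶠ n in atTop, ENNReal.ofReal (1 - ε / 4) <
      volume (S ∩ closedBall x (rr n)) / volume (closedBall x (rr n)) := by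
    apply h.eventually (lt_mem_nhds _)
    rw [← ENNReal.ofReal_one, ENNReal.ofReal_lt_ofReal_iff one_pos]
    linarith
  obtain ⟨n0, hn0⟩ := eventually_atTop.1 h1
  refine ⟨rr n0, rr_pos n0, fun r hr hr0 a b ha hb hab => ?_⟩
  by_contra hcon
  push Not at hcon
  -- choose the scale
  obtain ⟨n, hn1, hn2⟩ : ∃ n : ℕ, r ≤ rr n ∧ rr n < 2 * r ∧ n0 ≤ n := by
    refine ⟨⌊1 / r⌋₊ - 1, ?_, ?_⟩
    · have h2 : (1 : ℝ) ≤ 1 / r := by
        rw [le_div_iff₀ hr]
        have : rr n0 ≤ 1 := by
          unfold rr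
          rw [div_le_one (by positivity)]
          have : (0 : ℝ) ≤ n0 := Nat.cast_nonneg _
          linarith
        linarith
      have h3 : 1 ≤ ⌊1 / r⌋₊ := Nat.le_floor (by simpa using h2)
      have h4 : (((⌊1 / r⌋₊ - 1 : ℕ) : ℝ) + 1) = (⌊1 / r⌋₊ : ℝ) := by
        rw [Nat.cast_sub h3]; simp
      unfold rr
      rw [h4, le_div_iff₀ (by exact_mod_cast h3), mul_comm, ← le_div_iff₀ hr]
      exact Nat.floor_le (by positivity)
    · have h2 : (1 : ℝ) ≤ 1 / r := by
        rw [le_div_iff₀ hr]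
        have : rr n0 ≤ 1 := by
          unfold rr
          rw [div_le_one (by positivity)]
          have : (0 : ℝ) ≤ n0 := Nat.cast_nonneg _
          linarith
        linarith
      have h3 : 1 ≤ ⌊1 / r⌋₊ := Nat.le_floor (by simpa using h2)
      have h4 : (((⌊1 / r⌋₊ - 1 : ℕ) : ℝ) + 1) = (⌊1 / r⌋₊ : ℝ) := by
        rw [Nat.cast_sub h3]; simp
      have h5 : 1 / r < (⌊1 / r⌋₊ : ℝ) + 1 := Nat.lt_floor_add_one _
      have h3' : (1 : ℝ) ≤ (⌊1 / r⌋₊ : ℝ) := by exact_mod_cast h3
      refine ⟨?_, ?_⟩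
      · unfold rr
        rw [h4, div_lt_iff₀ (by linarith)]
        rw [div_lt_iff₀ hr] at h5
        nlinarith
      · have h6 : ((n0 : ℝ) + 1) < 1 / r := by
          rw [lt_div_iff₀ hr]
          unfold rr at hr0
          rw [lt_div_iff₀ (by positivity)] at hr0
          linarith
        have h7 : n0 + 1 ≤ ⌊1 / r⌋₊ := Nat.le_floor (by push_cast; exact h6.le)
        omega
  obtain ⟨hn2, hn3⟩ := hn2
  have h5 := hn0 n hn3
  have hR := rr_pos n
  set R := rr n with hRdef
  have hdis : Disjoint (S ∩ closedBall x R) (Ioo a b) := by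
    rw [Set.disjoint_left]
    rintro t ⟨ht, -⟩ ht2
    exact hcon t ht2 ht
  have hsub : (S ∩ closedBall x R) ∪ Ioo a b ⊆ closedBall x R := by
    apply union_subset inter_subset_right
    intro t ht
    rw [Real.closedBall_eq_Icc]
    exact ⟨by linarith [ht.1], by linarith [ht.2]⟩
  have h6 : volume (S ∩ closedBall x R) + volume (Ioo a b) ≤ volume (closedBall x R) := by
    rw [← measure_union hdis measurableSet_Ioo]
    exact measure_mono hsub
  rw [Real.volume_closedBall, Real.volume_Ioo] at h6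
  have hfin : volume (S ∩ closedBall x R) ≠ ∞ :=
    ((measure_mono inter_subset_right).trans_lt (by
      rw [Real.volume_closedBall]; exact ENNReal.ofReal_lt_top)).ne
  rw [Real.volume_closedBall] at h5
  obtain ⟨v, hv⟩ : ∃ v, v = (volume (S ∩ closedBall x R)).toReal := ⟨_, rfl⟩
  have hv0 : 0 ≤ v := by rw [hv]; exact ENNReal.toReal_nonneg
  have hv1 : volume (S ∩ closedBall x R) = ENNReal.ofReal v := by
    rw [hv, ENNReal.ofReal_toReal hfin]
  rw [hv1, ← ENNReal.ofReal_add hv0 (by nlinarith), ENNReal.ofReal_le_ofReal_iff (by linarith)] at h6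
  rw [hv1, ← ENNReal.ofReal_div_of_pos (by linarith), ENNReal.ofReal_lt_ofReal_iff'] at h5
  have h7 := (lt_div_iff₀ (by linarith : 0 < 2 * R)).1 h5.1
  nlinarith

/-- The measure of the slices. -/
lemma meas_slice {A : Set (ℝ × ℝ)} (hA : IsClosed A) (n : ℕ) :
    Measurable fun p : ℝ × ℝ => volume ({t | (p.1, t) ∈ A} ∩ closedBall p.2 (rr n)) := by
  have h1 : MeasurableSet {q : (ℝ × ℝ) × ℝ | (q.1.1, q.2) ∈ A ∧ dist q.2 q.1.2 ≤ rr n} := by
    apply IsClosed.measurableSet
    apply IsClosed.inter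
    · exact hA.preimage (show Continuous fun q : (ℝ × ℝ) × ℝ => (q.1.1, q.2) by fun_prop)
    · exact isClosed_le (f := fun q : (ℝ × ℝ) × ℝ => dist q.2 q.1.2) (g := fun _ => rr n)
        (by fun_prop) continuous_const
  exact measurable_measure_prodMk_left h1

lemma meas_dens {A : Set (ℝ × ℝ)} (hA : IsClosed A) :
    MeasurableSet {p : ℝ × ℝ | Dens {t | (p.1, t) ∈ A} p.2} := by
  unfold Dens
  apply measurableSet_tendsto
  intro n
  apply (meas_slice hA n).div
  have : (fun p : ℝ × ℝ => volume (closedBall p.2 (rr n))) = fun _ => ENNReal.ofReal (2 * rr n) := by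
    funext p
    rw [Real.volume_closedBall]
  rw [this]
  exact measurable_const

/-- vertical directions -/
lemma ae_thick_vert {A : Set (ℝ × ℝ)} (hA : IsClosed A) :
    ∀ᵐ p : ℝ × ℝ, p ∈ A → Thick {t | (p.1, t) ∈ A} p.2 := by
  have hm : MeasurableSet {p : ℝ × ℝ | p ∈ A ∧ ¬ Dens {t | (p.1, t) ∈ A} p.2} :=
    hA.measurableSet.inter (meas_dens hA).compl
  have h0 : volume {p : ℝ × ℝ | p ∈ A ∧ ¬ Dens {t | (p.1, t) ∈ A} p.2} = 0 := by
    rw [Measure.volume_eq_prod, Measure.measure_prod_null hm]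
    refine Eventually.of_forall fun x => ?_
    have h1 := ae_dens {t | (x, t) ∈ A}
    have h2 : MeasurableSet {t | (x, t) ∈ A} := (hA.preimage (by fun_prop)).measurableSet
    rw [ae_restrict_iff' h2] at h1
    rw [Pi.zero_apply]
    refine measure_mono_null ?_ (ae_iff.1 h1)
    rintro t ⟨h3, h4⟩
    simp only [mem_ofPred_eq, Classical.not_imp]
    exact ⟨h3, h4⟩
  filter_upwards [measure_eq_zero_iff_ae_notMem.1 h0] with p hp hpA
  apply thick_of_dens
  by_contra h3
  exact hp ⟨hpA, h3⟩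

/-- horizontal directions -/
lemma ae_thick_hor {A : Set (ℝ × ℝ)} (hA : IsClosed A) :
    ∀ᵐ p : ℝ × ℝ, p ∈ A → Thick {t | (t, p.2) ∈ A} p.1 := by
  have h1 : IsClosed (Prod.swap ⁻¹' A) := hA.preimage continuous_swap
  have h2 := ae_thick_vert h1
  have h3 : MeasurePreserving (Prod.swap : ℝ × ℝ → ℝ × ℝ) volume volume :=
    Measure.measurePreserving_swap
  filter_upwards [h3.quasiMeasurePreserving.ae h2] with p hp hpA
  exact hp hpA

end Pool.Agent.K6.H11.GL
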