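import Mathlib
import Pool.Agent.R789.C1Curve

/-!
# Continuous injective maps into `C¹` curves are differentiable almost everywhere

and a smooth closed curve in the plane which contains a segment.
-/

set_option autoImplicit false

open Set Filter Topology MeasureTheory Metric
open scoped ENNReal Manifold ContDiff

namespace Pool.Agent.K6.H11.GL

/-- Local lift of a continuous injective map into a closed curve. -/
lemma lift_local {S : Type*} [TopologicalSpace S] [T2Space S] {γ : ℝ → S} (hγ : Continuous γ)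
    (hp : ∀ t, γ (t + 1) = γ t) (hi : InjOn γ (Ico 0 1)) {g : ℝ → S} {a b : ℝ}
    (hg : ContinuousOn g (Icc a b)) (hgi : InjOn g (Icc a b)) (hr : ∀ t ∈ Icc a b, g t ∈ range γ)
    {t₀ : ℝ} (ht₀ : t₀ ∈ Ioo a b) :
    ∃ δ > 0, ∀ᵐ t, t ∈ Ioo (t₀ - δ) (t₀ + δ) →
      ∃ θ : ℝ → ℝ, DifferentiableAt ℝ θ t ∧ ∀ᶠ s in 𝓝 t, g s = γ (θ s) := by
  obtain ⟨s₀, hs₀⟩ := hr t₀ ⟨ht₀.1.le, ht₀.2.le⟩
  have hinj := R789.C1.inj_of_injOn hp hi
  have hP : Function.Periodic γ 1 := hp
  -- the part of the curve far from the point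
  have hK2 : IsClosed (γ '' Icc (s₀ + 1 / 4) (s₀ + 3 / 4)) :=
    (isCompact_Icc.image hγ).isClosed
  have hnot : g t₀ ∉ γ '' Icc (s₀ + 1 / 4) (s₀ + 3 / 4) := by
    rintro ⟨s, hs, hs'⟩
    exact hinj s₀ s (by linarith [hs.1]) (by linarith [hs.2]) (hs₀.trans hs'.symm)
  have hcont : ContinuousAt g t₀ := hg.continuousAt (Icc_mem_nhds ht₀.1 ht₀.2)
  have hev : ∀ᶠ t in 𝓝 t₀, t ∈ Icc a b ∧ g t ∉ γ '' Icc (s₀ + 1 / 4) (s₀ + 3 / 4) :=
    Eventually.and (Icc_mem_nhds ht₀.1 ht₀.2) (hcont.eventually (hK2.isOpen_compl.mem_nhds hnot))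
  obtain ⟨δ, hδ, H⟩ := Metric.nhds_basis_closedBall.eventually_iff.1 hev
  have H' : ∀ t ∈ Icc (t₀ - δ) (t₀ + δ), t ∈ Icc a b ∧
      g t ∉ γ '' Icc (s₀ + 1 / 4) (s₀ + 3 / 4) := by
    intro t ht
    apply H
    rw [Real.closedBall_eq_Icc]
    exact ht
  refine ⟨δ, hδ, ?_⟩
  -- the lift
  have hex : ∀ t : Icc (t₀ - δ) (t₀ + δ), ∃ s : Icc (s₀ - 1 / 4) (s₀ + 1 / 4), γ s = g t := by
    rintro ⟨t, ht⟩
    obtain ⟨s, hs⟩ := hr t (H' t ht).1
    obtain ⟨n, hn, -⟩ := existsUnique_add_zsmul_mem_Ico (one_pos : (0 : ℝ) < 1) s (s₀ - 1 / 4)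
    have h1 : γ (s + n • (1 : ℝ)) = g t := by
      rw [hP.zsmul n s]
      exact hs
    refine ⟨⟨s + n • (1 : ℝ), hn.1, ?_⟩, h1⟩
    by_contra hcon
    push Not at hcon
    exact (H' t ht).2 ⟨_, ⟨hcon.le, by linarith [hn.2]⟩, h1⟩
  choose θ₁ hθ₁ using hex
  have hemb : IsClosedEmbedding fun s : Icc (s₀ - 1 / 4) (s₀ + 1 / 4) => γ s := by
    apply Continuous.isClosedEmbedding (by fun_prop)
    rintro ⟨s, hs⟩ ⟨s', hs'⟩ h
    simp only at h
    rw [Subtype.mk.injEq]
    by_contra hne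
    rcases lt_or_gt_of_ne hne with hlt | hlt
    · exact hinj s s' hlt (by linarith [hs.1, hs'.2]) h
    · exact hinj s' s hlt (by linarith [hs'.1, hs.2]) h.symm
  have hθc : Continuous θ₁ := by
    rw [hemb.isInducing.continuous_iff]
    have : (fun s : Icc (s₀ - 1 / 4) (s₀ + 1 / 4) => γ s) ∘ θ₁ =
        fun t : Icc (t₀ - δ) (t₀ + δ) => g t := by
      funext t
      exact hθ₁ t
    rw [this]
    exact (hg.mono fun t ht => (H' t ht).1).domRestrict
  have hle : t₀ - δ ≤ t₀ + δ := by linarith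
  obtain ⟨θ, hθ⟩ : ∃ θ : ℝ → ℝ, θ = IccExtend hle (fun t => (θ₁ t : ℝ)) := ⟨_, rfl⟩
  have hθcont : Continuous θ := by
    rw [hθ]
    exact Continuous.Icc_extend' (by fun_prop)
  have hθeq : ∀ t (ht : t ∈ Icc (t₀ - δ) (t₀ + δ)), θ t = θ₁ ⟨t, ht⟩ := by
    intro t ht
    rw [hθ, IccExtend_of_mem _ _ ht]
  have hθg : ∀ t ∈ Icc (t₀ - δ) (t₀ + δ), g t = γ (θ t) := by
    intro t ht
    rw [hθeq t ht, hθ₁]
  have hθi : InjOn θ (Icc (t₀ - δ) (t₀ + δ)) := by
    intro t ht t' ht' h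
    apply hgi (H' t ht).1 (H' t' ht').1
    rw [hθg t ht, hθg t' ht', h]
  have hdiff : ∀ᵐ t, t ∈ Icc (t₀ - δ) (t₀ + δ) →
      DifferentiableWithinAt ℝ θ (Icc (t₀ - δ) (t₀ + δ)) t := by
    rcases hθcont.continuousOn.strictMonoOn_of_injOn_Icc' hle hθi with h | h
    · exact h.monotoneOn.ae_differentiableWithinAt_of_mem
    · filter_upwards [h.antitoneOn.neg.ae_differentiableWithinAt_of_mem] with t ht ht'
      have := (ht ht').neg
      simpa using this
  filter_upwards [hdiff] with t ht ht'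
  have hnh : Icc (t₀ - δ) (t₀ + δ) ∈ 𝓝 t := Icc_mem_nhds ht'.1 ht'.2
  refine ⟨θ, (ht ⟨ht'.1.le, ht'.2.le⟩).differentiableAt hnh, ?_⟩
  filter_upwards [hnh] with s hs using hθg s hs

/-! ### A smooth closed curve with a segment -/

/-- the auxiliary function -/
noncomputable def hh (c : ℝ) : ℝ :=
  Real.smoothTransition (2 * c) * c + (1 - Real.smoothTransition (2 * c))

lemma hh_smooth : ContDiff ℝ ∞ hh := by
  unfold hh
  have h1 : ContDiff ℝ ∞ fun c : ℝ => Real.smoothTransition (2 * c) :=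
    Real.smoothTransition.contDiff.comp (by fun_prop)
  exact (h1.mul contDiff_id).add (contDiff_const.sub h1)

lemma hh_pos (c : ℝ) : 0 < hh c := by
  unfold hh
  rcases le_or_gt c 0 with h | h
  · rw [Real.smoothTransition.zero_of_nonpos (by linarith)]
    norm_num
  · have h0 := Real.smoothTransition.nonneg (2 * c)
    have h1 := Real.smoothTransition.le_one (2 * c)
    rcases eq_or_lt_of_le h0 with h2 | h2
    · rw [← h2]; norm_num
    · have := mul_pos h2 h
      linarith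

lemma hh_eq {c : ℝ} (h : 1 / 2 ≤ c) : hh c = c := by
  unfold hh
  rw [Real.smoothTransition.one_of_one_le (by linarith)]
  ring

/-- the radius -/
noncomputable def rad (t : ℝ) : ℝ := (hh (Real.cos (2 * Real.pi * t)))⁻¹

lemma rad_smooth : ContDiff ℝ ∞ rad := by
  unfold rad
  apply ContDiff.inv
  · exact hh_smooth.comp (Real.contDiff_cos.comp (by fun_prop))
  · intro t; exact (hh_pos _).ne'

lemma rad_pos (t : ℝ) : 0 < rad t := inv_pos.2 (hh_pos _)

lemma rad_per (t : ℝ) : rad (t + 1) = rad t := by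
  unfold rad
  rw [mul_add, mul_one, Real.cos_add_two_pi]

/-- the curve -/
noncomputable def cv (t : ℝ) : ℂ := (rad t : ℂ) * Complex.exp ((2 * Real.pi * t : ℝ) * Complex.I)

lemma cv_smooth : ContDiff ℝ ∞ cv := by
  unfold cv
  apply ContDiff.mul
  · exact Complex.ofRealCLM.contDiff.comp rad_smooth
  · apply ContDiff.cexp
    have h1 : ContDiff ℝ ∞ fun t : ℝ => 2 * Real.pi * t := by fun_prop
    exact (Complex.ofRealCLM.contDiff.comp h1).mul contDiff_const

lemma cv_per (t : ℝ) : cv (t + 1) = cv t := by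
  unfold cv
  rw [rad_per]
  congr 1
  have : ((2 * Real.pi * (t + 1) : ℝ) : ℂ) * Complex.I =
      ((2 * Real.pi * t : ℝ) : ℂ) * Complex.I + 2 * Real.pi * Complex.I := by
    push_cast; ring
  rw [this, Complex.exp_periodic]

lemma cv_deriv (t : ℝ) : deriv cv t ≠ 0 := by
  obtain ⟨ρ', h1⟩ : ∃ ρ' : ℝ, HasDerivAt rad ρ' t :=
    ⟨_, (rad_smooth.differentiable (by simp) t).hasDerivAt⟩
  have h2 : HasDerivAt (fun t : ℝ => Complex.exp ((2 * Real.pi * t : ℝ) * Complex.I))
      (Complex.exp ((2 * Real.pi * t : ℝ) * Complex.I) * ((2 * Real.pi : ℝ) * Complex.I)) t := by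
    apply HasDerivAt.cexp
    have h3 : HasDerivAt (fun t : ℝ => 2 * Real.pi * t) (2 * Real.pi) t := by
      simpa using (hasDerivAt_id t).const_mul (2 * Real.pi)
    exact h3.ofReal_comp.mul_const Complex.I
  have h4 : HasDerivAt cv _ t := h1.ofReal_comp.mul h2
  rw [h4.deriv]
  intro h
  have h5 : Complex.exp ((2 * Real.pi * t : ℝ) * Complex.I) *
      ((ρ' : ℂ) + (rad t : ℂ) * ((2 * Real.pi : ℝ) * Complex.I)) = 0 := by
    rw [← h]; ring
  rcases mul_eq_zero.1 h5 with h6 | h6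
  · exact Complex.exp_ne_zero _ h6
  · have h7 := congrArg Complex.im h6
    simp at h7
    exact (rad_pos t).ne' h7

lemma norm_cv (t : ℝ) : ‖cv t‖ = rad t := by
  unfold cv
  rw [norm_mul, Complex.norm_exp_ofReal_mul_I, mul_one, Complex.norm_real, Real.norm_eq_abs,
    abs_of_pos (rad_pos t)]

lemma cv_inj : InjOn cv (Ico 0 1) := by
  intro s hs t ht h
  have h1 : rad s = rad t := by rw [← norm_cv, ← norm_cv, h]
  have h2 : Complex.exp ((2 * Real.pi * s : ℝ) * Complex.I) =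
      Complex.exp ((2 * Real.pi * t : ℝ) * Complex.I) := by
    unfold cv at h
    rw [h1] at h
    exact mul_left_cancel₀ (by exact_mod_cast (rad_pos t).ne') h
  rw [Complex.exp_eq_exp_iff_exists_int] at h2
  obtain ⟨n, hn⟩ := h2
  have h3 : 2 * Real.pi * s = 2 * Real.pi * t + n * (2 * Real.pi) := by
    have := congrArg Complex.im hn
    simpa using this
  have h4 : s = t + n := by
    have hp := Real.pi_pos
    have : 2 * Real.pi * (s - (t + n)) = 0 := by linarith
    rcases mul_eq_zero.1 this with h5 | h5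
    · linarith
    · linarith
  have h5 : (n : ℝ) < 1 := by linarith [hs.2, ht.1]
  have h6 : (-1 : ℝ) < n := by linarith [hs.1, ht.2]
  have h7 : n < 1 := by exact_mod_cast h5
  have h8 : -1 < n := by exact_mod_cast h6
  have h9 : n = 0 := by omega
  rw [h9] at h4
  simpa using h4

/-- the segment on the curve -/
lemma cv_seg {y : ℝ} (hy : |y| ≤ 1) : ∃ t, cv t = 1 + y * Complex.I := by
  refine ⟨Real.arctan y / (2 * Real.pi), ?_⟩
  have hp := Real.pi_pos
  have h1 : 2 * Real.pi * (Real.arctan y / (2 * Real.pi)) = Real.arctan y := by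
    field_simp
  have h2 : 1 / 2 ≤ Real.cos (Real.arctan y) := by
    rw [Real.cos_arctan]
    apply one_div_le_one_div_of_le (by positivity)
    rw [Real.sqrt_le_left (by norm_num)]
    nlinarith [sq_abs y, abs_nonneg y]
  unfold cv rad
  rw [h1, hh_eq h2, Complex.exp_mul_I, ← Complex.ofReal_cos, ← Complex.ofReal_sin]
  have h3 : Real.sin (Real.arctan y) = y * Real.cos (Real.arctan y) := by
    rw [Real.sin_arctan, Real.cos_arctan]; ring
  have h4 : (Real.cos (Real.arctan y) : ℂ) ≠ 0 := by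
    exact_mod_cast (by linarith : Real.cos (Real.arctan y) ≠ 0)
  rw [h3, Complex.ofReal_inv, Complex.ofReal_mul]
  generalize (Real.cos (Real.arctan y) : ℂ) = c at h4
  field_simp

lemma cv_bdd : ∃ B > 0, ∀ t, ‖cv t - 1‖ ≤ B := by
  have h1 : Continuous cv := cv_smooth.continuous
  obtain ⟨B, hB⟩ := (isCompact_Icc (a := (0 : ℝ)) (b := 1)).exists_bound_of_continuousOn
    (f := fun t => cv t - 1) (by fun_prop)
  have hP : Function.Periodic cv 1 := cv_per
  refine ⟨max B 1, by positivity, fun t => ?_⟩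
  obtain ⟨y, hy, hy'⟩ := hP.exists_mem_Ico₀ one_pos t
  rw [hy']
  exact (hB y ⟨hy.1, hy.2.le⟩).trans (le_max_left _ _)

end Pool.Agent.K6.H11.GL
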