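import Mathlib
import Pool.Agent.K6.H11.GL.Density

/-!
# The theorem of Gehring and Lehto

A continuous map of a plane domain which satisfies a maximum principle on rectangles (for example an
open map) and has partial derivatives almost everywhere is differentiable almost everywhere.
-/

set_option autoImplicit false

open Set Filter Topology MeasureTheory Metric
open scoped ENNReal

namespace Pool.Agent.K6.H11.GL

variable {E : Type*} [NormedAddCommGroup E] [NormedSpace ℝ E]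

/-- `L` is close to the derivative in the first variable, at all scales less than `δ`. -/
def HX (F : ℝ × ℝ → E) (L : E) (η δ : ℝ) : Set (ℝ × ℝ) :=
  {p | ∀ h : ℝ, |h| ≤ δ → ‖F (p.1 + h, p.2) - F p - h • L‖ ≤ η * |h|}

/-- `L` is close to the derivative in the second variable, at all scales less than `δ`. -/
def HY (F : ℝ × ℝ → E) (L : E) (η δ : ℝ) : Set (ℝ × ℝ) :=
  {p | ∀ h : ℝ, |h| ≤ δ → ‖F (p.1, p.2 + h) - F p - h • L‖ ≤ η * |h|}

lemma isClosed_HX {F : ℝ × ℝ → E} (hF : Continuous F) (L : E) (η δ : ℝ) :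
    IsClosed (HX F L η δ) := by
  have : HX F L η δ = ⋂ (h : ℝ) (_ : |h| ≤ δ), {p | ‖F (p.1 + h, p.2) - F p - h • L‖ ≤ η * |h|} := by
    ext p
    simp [HX]
  rw [this]
  refine isClosed_iInter fun h => isClosed_iInter fun _ => isClosed_le ?_ continuous_const
  fun_prop

lemma isClosed_HY {F : ℝ × ℝ → E} (hF : Continuous F) (L : E) (η δ : ℝ) :
    IsClosed (HY F L η δ) := by
  have : HY F L η δ = ⋂ (h : ℝ) (_ : |h| ≤ δ), {p | ‖F (p.1, p.2 + h) - F p - h • L‖ ≤ η * |h|} := by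
    ext p
    simp [HY]
  rw [this]
  refine isClosed_iInter fun h => isClosed_iInter fun _ => isClosed_le ?_ continuous_const
  fun_prop

/-- The maximum principle on rectangles. -/
def MaxP (F : ℝ × ℝ → E) (U : Set (ℝ × ℝ)) : Prop :=
  ∀ a b c d : ℝ, a < b → c < d → Icc a b ×ˢ Icc c d ⊆ U → ∀ (w : E) (M : ℝ),
    (∀ v ∈ Icc c d, ‖F (a, v) - w‖ ≤ M ∧ ‖F (b, v) - w‖ ≤ M) →
    (∀ u ∈ Icc a b, ‖F (u, c) - w‖ ≤ M ∧ ‖F (u, d) - w‖ ≤ M) →
    ∀ z ∈ Icc a b ×ˢ Icc c d, ‖F z - w‖ ≤ M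

/-- comparison with an affine function at one point of the boundary of the rectangle -/
lemma side_x {F : ℝ × ℝ → E} {L1 L2 : E} {η δ : ℝ} {p : ℝ × ℝ} (hpX : p ∈ HX F L1 η δ) {x v ρ : ℝ}
    (hη : 0 < η) (hx : (x, p.2) ∈ HY F L2 η δ) (h1 : |x - p.1| ≤ 2 * ρ) (h2 : |v - p.2| ≤ 2 * ρ)
    (hδ : 2 * ρ ≤ δ) :
    ‖F (x, v) - (F p + ((x - p.1) • L1 + (v - p.2) • L2))‖ ≤ 4 * η * ρ := by
  have h3 := hpX (x - p.1) (h1.trans hδ)
  have h4 := hx (v - p.2) (h2.trans hδ)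
  simp only [add_sub_cancel] at h3 h4
  have e : F (x, v) - (F p + ((x - p.1) • L1 + (v - p.2) • L2)) =
      (F (x, v) - F (x, p.2) - (v - p.2) • L2) + (F (x, p.2) - F p - (x - p.1) • L1) := by abel
  rw [e]
  calc _ ≤ _ := norm_add_le _ _
    _ ≤ η * |v - p.2| + η * |x - p.1| := add_le_add h4 h3
    _ ≤ η * (2 * ρ) + η * (2 * ρ) := by gcongr
    _ = _ := by ring

lemma side_y {F : ℝ × ℝ → E} {L1 L2 : E} {η δ : ℝ} {p : ℝ × ℝ} (hpY : p ∈ HY F L2 η δ) {u y ρ : ℝ}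
    (hη : 0 < η) (hy : (p.1, y) ∈ HX F L1 η δ) (h1 : |u - p.1| ≤ 2 * ρ) (h2 : |y - p.2| ≤ 2 * ρ)
    (hδ : 2 * ρ ≤ δ) :
    ‖F (u, y) - (F p + ((u - p.1) • L1 + (y - p.2) • L2))‖ ≤ 4 * η * ρ := by
  have h3 := hpY (y - p.2) (h2.trans hδ)
  have h4 := hy (u - p.1) (h1.trans hδ)
  simp only [add_sub_cancel] at h3 h4
  have e : F (u, y) - (F p + ((u - p.1) • L1 + (y - p.2) • L2)) =
      (F (u, y) - F (p.1, y) - (u - p.1) • L1) + (F (p.1, y) - F p - (y - p.2) • L2) := by abel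
  rw [e]
  calc _ ≤ _ := norm_add_le _ _
    _ ≤ η * |u - p.1| + η * |y - p.2| := add_le_add h4 h3
    _ ≤ η * (2 * ρ) + η * (2 * ρ) := by gcongr
    _ = _ := by ring

/-- The approximation in a full neighbourhood. -/
lemma geo {F : ℝ × ℝ → E} {U : Set (ℝ × ℝ)} (hU : IsOpen U) (hmax : MaxP F U) {L1 L2 : E}
    {η δ : ℝ} (hη : 0 < η) (hδ : 0 < δ) {p : ℝ × ℝ} (hp : p ∈ U) (hpX : p ∈ HX F L1 η δ)
    (hpY : p ∈ HY F L2 η δ) (h1 : Thick {t | (t, p.2) ∈ HY F L2 η δ} p.1)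
    (h2 : Thick {t | (p.1, t) ∈ HX F L1 η δ} p.2) :
    ∀ᶠ z in 𝓝 p, ‖F z - (F p + ((z.1 - p.1) • L1 + (z.2 - p.2) • L2))‖ ≤ 10 * η * ‖z - p‖ := by
  obtain ⟨K, hK⟩ : ∃ K, K = ‖L1‖ + ‖L2‖ + 1 := ⟨_, rfl⟩
  have hn1 := norm_nonneg L1
  have hn2 := norm_nonneg L2
  have hK0 : 0 < K := by rw [hK]; positivity
  obtain ⟨ε, hε⟩ : ∃ ε, ε = min (1 / 3) (η / K) := ⟨_, rfl⟩
  have hε0 : 0 < ε := by rw [hε]; positivity
  have hε1 : ε ≤ 1 / 3 := by rw [hε]; exact min_le_left _ _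
  have hε2 : ε * K ≤ η := by
    have : ε ≤ η / K := by rw [hε]; exact min_le_right _ _
    rwa [le_div_iff₀ hK0] at this
  obtain ⟨r1, hr1, H1⟩ := h1 ε hε0
  obtain ⟨r2, hr2, H2⟩ := h2 ε hε0
  obtain ⟨R, hR, hRU⟩ := Metric.isOpen_iff.1 hU p hp
  have hmem : ball p (min (min (r1 / 2) (r2 / 2)) (min (δ / 2) (R / 3))) ∈ 𝓝 p :=
    ball_mem_nhds _ (by positivity)
  filter_upwards [hmem] with z hz
  rw [mem_ball, dist_eq_norm, lt_min_iff, lt_min_iff, lt_min_iff] at hz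
  obtain ⟨⟨hz1, hz2⟩, hz3, hz4⟩ := hz
  rcases eq_or_ne z p with rfl | hne
  · simp
  obtain ⟨ρ, hρ⟩ : ∃ ρ, ρ = ‖z - p‖ := ⟨_, rfl⟩
  have hρ0 : 0 < ρ := by rw [hρ, norm_pos_iff]; exact sub_ne_zero.2 hne
  rw [← hρ] at hz1 hz2 hz3 hz4 ⊢
  have hzx : |z.1 - p.1| ≤ ρ := by rw [hρ]; exact norm_fst_le (z - p)
  have hzy : |z.2 - p.2| ≤ ρ := by rw [hρ]; exact norm_snd_le (z - p)
  rw [abs_le] at hzx hzy
  have hερ : 3 * ε * ρ ≤ ρ := by nlinarith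
  have hερ0 : 0 < ε * ρ := by positivity
  obtain ⟨x1, hx1, hx1'⟩ := H1 (2 * ρ) (by positivity) (by linarith) (z.1 - 3 * ε * ρ) z.1
    (by linarith) (by linarith) (by nlinarith)
  obtain ⟨x2, hx2, hx2'⟩ := H1 (2 * ρ) (by positivity) (by linarith) z.1 (z.1 + 3 * ε * ρ)
    (by linarith) (by linarith) (by nlinarith)
  obtain ⟨y1, hy1, hy1'⟩ := H2 (2 * ρ) (by positivity) (by linarith) (z.2 - 3 * ε * ρ) z.2
    (by linarith) (by linarith) (by nlinarith)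
  obtain ⟨y2, hy2, hy2'⟩ := H2 (2 * ρ) (by positivity) (by linarith) z.2 (z.2 + 3 * ε * ρ)
    (by linarith) (by linarith) (by nlinarith)
  have hbx : ∀ u ∈ Icc x1 x2, |u - p.1| ≤ 2 * ρ ∧ |u - z.1| ≤ 3 * ε * ρ := by
    intro u hu
    constructor
    · rw [abs_le]; constructor <;> linarith [hu.1, hu.2, hx1.1, hx1.2, hx2.1, hx2.2]
    · rw [abs_le]; constructor <;> linarith [hu.1, hu.2, hx1.1, hx1.2, hx2.1, hx2.2]
  have hby : ∀ v ∈ Icc y1 y2, |v - p.2| ≤ 2 * ρ ∧ |v - z.2| ≤ 3 * ε * ρ := by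
    intro v hv
    constructor
    · rw [abs_le]; constructor <;> linarith [hv.1, hv.2, hy1.1, hy1.2, hy2.1, hy2.2]
    · rw [abs_le]; constructor <;> linarith [hv.1, hv.2, hy1.1, hy1.2, hy2.1, hy2.2]
  have hsub : Icc x1 x2 ×ˢ Icc y1 y2 ⊆ U := by
    rintro ⟨u, v⟩ ⟨hu, hv⟩
    apply hRU
    rw [mem_ball, Prod.dist_eq, Real.dist_eq, Real.dist_eq, max_lt_iff]
    exact ⟨(hbx u hu).1.trans_lt (by linarith), (hby v hv).1.trans_lt (by linarith)⟩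
  -- from the affine function at the boundary point to its value at `z`
  have key : ∀ u ∈ Icc x1 x2, ∀ v ∈ Icc y1 y2,
      ‖F (u, v) - (F p + ((u - p.1) • L1 + (v - p.2) • L2))‖ ≤ 4 * η * ρ →
      ‖F (u, v) - (F p + ((z.1 - p.1) • L1 + (z.2 - p.2) • L2))‖ ≤ 10 * η * ρ := by
    intro u hu v hv h
    have e : F (u, v) - (F p + ((z.1 - p.1) • L1 + (z.2 - p.2) • L2)) =
        (F (u, v) - (F p + ((u - p.1) • L1 + (v - p.2) • L2))) +
          ((u - z.1) • L1 + (v - z.2) • L2) := by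
      simp only [sub_smul]
      abel
    rw [e]
    have h3 : ‖(u - z.1) • L1 + (v - z.2) • L2‖ ≤ 3 * ε * ρ * ‖L1‖ + 3 * ε * ρ * ‖L2‖ := by
      refine (norm_add_le _ _).trans ?_
      rw [norm_smul, norm_smul, Real.norm_eq_abs, Real.norm_eq_abs]
      have := (hbx u hu).2
      have := (hby v hv).2
      gcongr
    have h4 : 3 * ε * ρ * ‖L1‖ + 3 * ε * ρ * ‖L2‖ ≤ 3 * η * ρ := by
      have : ε * (‖L1‖ + ‖L2‖) ≤ η := by
        refine le_trans ?_ hε2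
        rw [hK]
        nlinarith
      nlinarith
    calc _ ≤ _ := norm_add_le _ _
      _ ≤ 4 * η * ρ + 3 * η * ρ := add_le_add h (h3.trans h4)
      _ ≤ _ := by nlinarith [mul_pos hη hρ0]
  refine hmax x1 x2 y1 y2 (by linarith [hx1.2, hx2.1]) (by linarith [hy1.2, hy2.1]) hsub _ _
    (fun v hv => ?_) (fun u hu => ?_) z ⟨⟨hx1.2.le, hx2.1.le⟩, ⟨hy1.2.le, hy2.1.le⟩⟩
  · have hx12 : x1 ≤ x2 := by linarith [hx1.2, hx2.1]
    exact ⟨key x1 ⟨le_rfl, hx12⟩ v hv (side_x hpX hη hx1' (hbx _ ⟨le_rfl, hx12⟩).1 (hby v hv).1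
        (by linarith)),
      key x2 ⟨hx12, le_rfl⟩ v hv (side_x hpX hη hx2' (hbx _ ⟨hx12, le_rfl⟩).1 (hby v hv).1
        (by linarith))⟩
  · have hy12 : y1 ≤ y2 := by linarith [hy1.2, hy2.1]
    exact ⟨key u hu y1 ⟨le_rfl, hy12⟩ (side_y hpY hη hy1' (hbx u hu).1 (hby _ ⟨le_rfl, hy12⟩).1
        (by linarith)),
      key u hu y2 ⟨hy12, le_rfl⟩ (side_y hpY hη hy2' (hbx u hu).1 (hby _ ⟨hy12, le_rfl⟩).1
        (by linarith))⟩

/-- the derivative of a function of one variable, at all small scales -/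
lemma deriv_scale {g : ℝ → E} {x : ℝ} {a L : E} (hg : HasDerivAt g a x) {η : ℝ} (hη : 0 < η)
    (hL : ‖L - a‖ ≤ η / 2) : ∃ k : ℕ, ∀ h : ℝ, |h| ≤ 1 / ((k : ℝ) + 1) →
      ‖g (x + h) - g x - h • L‖ ≤ η * |h| := by
  have h1 := (hasDerivAt_iff_isLittleO_nhds_zero.1 hg).def (half_pos hη)
  obtain ⟨r, hr, H⟩ := Metric.eventually_nhds_iff.1 h1
  obtain ⟨k, hk⟩ := exists_nat_one_div_lt hr
  refine ⟨k, fun h hh => ?_⟩
  have h2 : dist h 0 < r := by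
    rw [dist_zero_right, Real.norm_eq_abs]
    exact hh.trans_lt hk
  have h3 := H h2
  rw [Real.norm_eq_abs] at h3
  have e : g (x + h) - g x - h • L = (g (x + h) - g x - h • a) - h • (L - a) := by
    rw [smul_sub]; abel
  rw [e]
  calc _ ≤ _ := norm_sub_le _ _
    _ ≤ η / 2 * |h| + |h| * (η / 2) := by
        rw [norm_smul, Real.norm_eq_abs]
        gcongr
    _ = _ := by ring

/-- **Gehring and Lehto.** -/
theorem main [CompleteSpace E] [SecondCountableTopology E] {F : ℝ × ℝ → E} (hF : Continuous F)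
    {U : Set (ℝ × ℝ)} (hU : IsOpen U) (hmax : MaxP F U)
    (hx : ∀ᵐ p : ℝ × ℝ, p ∈ U → DifferentiableAt ℝ (fun t => F (t, p.2)) p.1)
    (hy : ∀ᵐ p : ℝ × ℝ, p ∈ U → DifferentiableAt ℝ (fun t => F (p.1, t)) p.2) :
    ∀ᵐ p : ℝ × ℝ, p ∈ U → DifferentiableAt ℝ F p := by
  have h1 : ∀ᵐ p : ℝ × ℝ, ∀ m i k : ℕ,
      p ∈ HX F (TopologicalSpace.denseSeq E i) (1 / ((m : ℝ) + 1)) (1 / ((k : ℝ) + 1)) →
      Thick {t | (p.1, t) ∈ HX F (TopologicalSpace.denseSeq E i) (1 / ((m : ℝ) + 1)) (1 / ((k : ℝ) + 1))} p.2 := by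
    rw [ae_all_iff]; intro m
    rw [ae_all_iff]; intro i
    rw [ae_all_iff]; intro k
    exact ae_thick_vert (isClosed_HX hF _ _ _)
  have h2 : ∀ᵐ p : ℝ × ℝ, ∀ m i k : ℕ,
      p ∈ HY F (TopologicalSpace.denseSeq E i) (1 / ((m : ℝ) + 1)) (1 / ((k : ℝ) + 1)) →
      Thick {t | (t, p.2) ∈ HY F (TopologicalSpace.denseSeq E i) (1 / ((m : ℝ) + 1)) (1 / ((k : ℝ) + 1))} p.1 := by
    rw [ae_all_iff]; intro m
    rw [ae_all_iff]; intro i
    rw [ae_all_iff]; intro k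
    exact ae_thick_hor (isClosed_HY hF _ _ _)
  filter_upwards [hx, hy, h1, h2] with p hpx hpy hp1 hp2 hpU
  obtain ⟨a, ha⟩ : ∃ a, HasDerivAt (fun t => F (t, p.2)) a p.1 := ⟨_, (hpx hpU).hasDerivAt⟩
  obtain ⟨b, hb⟩ : ∃ b, HasDerivAt (fun t => F (p.1, t)) b p.2 := ⟨_, (hpy hpU).hasDerivAt⟩
  have hD : HasFDerivAt F ((ContinuousLinearMap.fst ℝ ℝ ℝ).smulRight a +
      (ContinuousLinearMap.snd ℝ ℝ ℝ).smulRight b) p := by
    rw [hasFDerivAt_iff_isLittleO, Asymptotics.isLittleO_iff]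
    intro c hc
    obtain ⟨m, hm⟩ := exists_nat_one_div_lt (show 0 < c / 11 by positivity)
    obtain ⟨η, hη⟩ : ∃ η : ℝ, η = 1 / ((m : ℝ) + 1) := ⟨_, rfl⟩
    have hη0 : 0 < η := by rw [hη]; positivity
    have hηc : 11 * η ≤ c := by rw [hη]; linarith
    obtain ⟨i, hi⟩ : ∃ i, ‖TopologicalSpace.denseSeq E i - a‖ ≤ η / 2 := by
      obtain ⟨i, hi⟩ := (TopologicalSpace.denseRange_denseSeq E).exists_dist_lt a (half_pos hη0)
      exact ⟨i, by rw [dist_eq_norm, norm_sub_rev] at hi; exact hi.le⟩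
    obtain ⟨j, hj⟩ : ∃ j, ‖TopologicalSpace.denseSeq E j - b‖ ≤ η / 2 := by
      obtain ⟨i, hi⟩ := (TopologicalSpace.denseRange_denseSeq E).exists_dist_lt b (half_pos hη0)
      exact ⟨i, by rw [dist_eq_norm, norm_sub_rev] at hi; exact hi.le⟩
    obtain ⟨k1, hk1⟩ := deriv_scale ha hη0 hi
    obtain ⟨k2, hk2⟩ := deriv_scale hb hη0 hj
    have hk : ∀ k1 k2 : ℕ, 1 / (((max k1 k2 : ℕ) : ℝ) + 1) ≤ 1 / ((k1 : ℝ) + 1) := by
      intro k1 k2
      apply one_div_le_one_div_of_le (by positivity)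
      have : (k1 : ℝ) ≤ ((max k1 k2 : ℕ) : ℝ) := by exact_mod_cast le_max_left k1 k2
      linarith
    have hX : p ∈ HX F (TopologicalSpace.denseSeq E i) η (1 / (((max k1 k2 : ℕ) : ℝ) + 1)) :=
      fun h hh => hk1 h (hh.trans (hk k1 k2))
    have hY : p ∈ HY F (TopologicalSpace.denseSeq E j) η (1 / (((max k1 k2 : ℕ) : ℝ) + 1)) :=
      fun h hh => hk2 h (hh.trans (by rw [max_comm]; exact hk k2 k1))
    have hg := geo hU hmax hη0 (by positivity) hpU hX hY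
      (by rw [hη] at hY ⊢; exact hp2 m j _ hY) (by rw [hη] at hX ⊢; exact hp1 m i _ hX)
    filter_upwards [hg] with z hz
    have hzx : |z.1 - p.1| ≤ ‖z - p‖ := norm_fst_le (z - p)
    have hzy : |z.2 - p.2| ≤ ‖z - p‖ := norm_snd_le (z - p)
    simp only [ContinuousLinearMap.add_apply, ContinuousLinearMap.smulRight_apply,
      ContinuousLinearMap.coe_fst', ContinuousLinearMap.coe_snd', Prod.fst_sub, Prod.snd_sub]
    obtain ⟨L1, hL1⟩ : ∃ L1, L1 = TopologicalSpace.denseSeq E i := ⟨_, rfl⟩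
    obtain ⟨L2, hL2⟩ : ∃ L2, L2 = TopologicalSpace.denseSeq E j := ⟨_, rfl⟩
    rw [← hL1] at hi hz
    rw [← hL2] at hj hz
    have e : F z - F p - ((z.1 - p.1) • a + (z.2 - p.2) • b) =
        (F z - (F p + ((z.1 - p.1) • L1 + (z.2 - p.2) • L2))) +
          ((z.1 - p.1) • (L1 - a) + (z.2 - p.2) • (L2 - b)) := by
      rw [smul_sub, smul_sub]
      abel
    rw [e]
    have h3 : ‖(z.1 - p.1) • (L1 - a) + (z.2 - p.2) • (L2 - b)‖ ≤
        ‖z - p‖ * (η / 2) + ‖z - p‖ * (η / 2) := by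
      refine (norm_add_le _ _).trans ?_
      rw [norm_smul, norm_smul, Real.norm_eq_abs, Real.norm_eq_abs]
      gcongr
    calc _ ≤ _ := norm_add_le _ _
      _ ≤ 10 * η * ‖z - p‖ + (‖z - p‖ * (η / 2) + ‖z - p‖ * (η / 2)) := add_le_add hz h3
      _ = 11 * η * ‖z - p‖ := by ring
      _ ≤ c * ‖z - p‖ := by gcongr
  exact hD.differentiableAt

end Pool.Agent.K6.H11.GL
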