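import Mathlib
import Pool.Agent.K6.H11.GL.Main

/-!
# Open maps satisfy the maximum principle; almost everywhere statements in the plane
-/

set_option autoImplicit false

open Set Filter Topology MeasureTheory Metric
open scoped ENNReal

namespace Pool.Agent.K6.H11.GL

/-- A homeomorphism between open subsets of the plane satisfies the maximum principle. -/
lemma maxP_of_homeo (e : OpenPartialHomeomorph (ℝ × ℝ) ℂ) {U : Set (ℝ × ℝ)} (hU : U ⊆ e.source)
    {G : ℝ × ℝ → ℂ} (hG : ∀ p ∈ U, G p = e p) : MaxP G U := by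
  intro a b c d hab hcd hR w M hM1 hM2 z hz
  have hRe : Icc a b ×ˢ Icc c d ⊆ e.source := hR.trans hU
  have hcomp : IsCompact (Icc a b ×ˢ Icc c d) := isCompact_Icc.prod isCompact_Icc
  have hco : ContinuousOn (fun q => ‖e q - w‖) (Icc a b ×ˢ Icc c d) :=
    ((e.continuousOn.mono hRe).sub continuousOn_const).norm
  obtain ⟨q, hq, hmax⟩ := hcomp.exists_isMaxOn ⟨z, hz⟩ hco
  have hmax' : ∀ x ∈ Icc a b ×ˢ Icc c d, ‖e x - w‖ ≤ ‖e q - w‖ := fun x hx => hmax hx
  have h0 : 0 ≤ M := (norm_nonneg _).trans (hM1 c ⟨le_rfl, hcd.le⟩).1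
  -- enough: the bound at `q`
  have hqM : ‖e q - w‖ ≤ M := by
    by_cases hint : q ∈ Ioo a b ×ˢ Ioo c d
    · -- the image of the open rectangle is open
      have hop : IsOpen (e '' (Ioo a b ×ˢ Ioo c d)) :=
        e.isOpen_image_of_subset_source (isOpen_Ioo.prod isOpen_Ioo)
          ((Set.prod_mono Ioo_subset_Icc_self Ioo_subset_Icc_self).trans hRe)
      obtain ⟨τ, hτ, hball⟩ := Metric.isOpen_iff.1 hop (e q) ⟨q, hint, rfl⟩
      rcases eq_or_ne (e q) w with h1 | h1
      · rw [h1, sub_self, norm_zero]; exact h0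
      · exfalso
        have hn : 0 < ‖e q - w‖ := norm_pos_iff.2 (sub_ne_zero.2 h1)
        have hmem : e q + ((τ / 2 / ‖e q - w‖ : ℝ) : ℂ) * (e q - w) ∈ ball (e q) τ := by
          rw [mem_ball, dist_eq_norm, add_sub_cancel_left, norm_mul, Complex.norm_real,
            Real.norm_eq_abs, abs_of_pos (by positivity), div_mul_cancel₀ _ hn.ne']
          linarith
        obtain ⟨x, hx, hx'⟩ := hball hmem
        have h2 := hmax' x ⟨Ioo_subset_Icc_self hx.1, Ioo_subset_Icc_self hx.2⟩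
        rw [hx'] at h2
        have h3 : e q + ((τ / 2 / ‖e q - w‖ : ℝ) : ℂ) * (e q - w) - w =
            ((1 + τ / 2 / ‖e q - w‖ : ℝ) : ℂ) * (e q - w) := by
          push_cast; ring
        rw [h3, norm_mul, Complex.norm_real, Real.norm_eq_abs, abs_of_pos (by positivity)] at h2
        have h4 : 0 < τ / 2 / ‖e q - w‖ * ‖e q - w‖ := by positivity
        nlinarith
    · -- `q` is on the boundary
      have hqU := hR hq
      rw [← hG q hqU]
      obtain ⟨⟨q1, q2⟩, ⟨q3, q4⟩⟩ := hq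
      rw [mem_prod, mem_Ioo, mem_Ioo] at hint
      by_cases e1 : q.1 = a
      · have := (hM1 q.2 ⟨q3, q4⟩).1
        rwa [← e1] at this
      by_cases e2 : q.1 = b
      · have := (hM1 q.2 ⟨q3, q4⟩).2
        rwa [← e2] at this
      by_cases e3 : q.2 = c
      · have := (hM2 q.1 ⟨q1, q2⟩).1
        rwa [← e3] at this
      by_cases e4 : q.2 = d
      · have := (hM2 q.1 ⟨q1, q2⟩).2
        rwa [← e4] at this
      exact absurd ⟨⟨lt_of_le_of_ne q1 (Ne.symm e1), lt_of_le_of_ne q2 e2⟩,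
        ⟨lt_of_le_of_ne q3 (Ne.symm e3), lt_of_le_of_ne q4 e4⟩⟩ hint
  rw [hG z (hR hz)]
  exact (hmax' z hz).trans hqM

/-- differentiability in the second variable -/
lemma ae_vert {F : ℝ × ℝ → ℂ} (hF : Continuous F) {U : Set (ℝ × ℝ)} (hU : IsOpen U)
    (h : ∀ x : ℝ, ∀ᵐ y : ℝ, (x, y) ∈ U → DifferentiableAt ℝ (fun t => F (x, t)) y) :
    ∀ᵐ p : ℝ × ℝ, p ∈ U → DifferentiableAt ℝ (fun t => F (p.1, t)) p.2 := by
  have hm : MeasurableSet {p : ℝ × ℝ | p ∈ U ∧ ¬ DifferentiableAt ℝ (fun t => F (p.1, t)) p.2} :=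
    hU.measurableSet.inter (measurableSet_of_differentiableAt_with_param ℝ
      (f := fun x y => F (x, y)) (show Continuous (Function.uncurry fun x y => F (x, y)) from hF)).compl
  have h0 : volume {p : ℝ × ℝ | p ∈ U ∧ ¬ DifferentiableAt ℝ (fun t => F (p.1, t)) p.2} = 0 := by
    rw [Measure.volume_eq_prod, Measure.measure_prod_null hm]
    refine Eventually.of_forall fun x => ?_
    rw [Pi.zero_apply]
    refine measure_mono_null ?_ (ae_iff.1 (h x))
    rintro t ⟨h3, h4⟩
    simp only [mem_ofPred_eq, Classical.not_imp]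
    exact ⟨h3, h4⟩
  filter_upwards [measure_eq_zero_iff_ae_notMem.1 h0] with p hp hpA
  by_contra h3
  exact hp ⟨hpA, h3⟩

/-- differentiability in the first variable -/
lemma ae_hor {F : ℝ × ℝ → ℂ} (hF : Continuous F) {U : Set (ℝ × ℝ)} (hU : IsOpen U)
    (h : ∀ y : ℝ, ∀ᵐ x : ℝ, (x, y) ∈ U → DifferentiableAt ℝ (fun t => F (t, y)) x) :
    ∀ᵐ p : ℝ × ℝ, p ∈ U → DifferentiableAt ℝ (fun t => F (t, p.2)) p.1 := by
  have h1 := ae_vert (F := F ∘ Prod.swap) (hF.comp continuous_swap)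
    (U := Prod.swap ⁻¹' U) (hU.preimage continuous_swap) (fun x => h x)
  have h3 : MeasurePreserving (Prod.swap : ℝ × ℝ → ℝ × ℝ) volume volume :=
    Measure.measurePreserving_swap
  filter_upwards [h3.quasiMeasurePreserving.ae h1] with p hp hpA
  exact hp hpA

end Pool.Agent.K6.H11.GL
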