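import Mathlib
import Pool.Agent.K6.H11.GL.MaxP
import Pool.Agent.K6.H11.GL.Lift

/-!
# Homeomorphisms of surfaces which preserve `C¹` curves are differentiable almost everywhere
-/

set_option autoImplicit false

open Set Filter Topology MeasureTheory Metric R789.C1
open scoped ENNReal Manifold ContDiff

namespace Pool.Agent.K6.H11.GL

variable {S : Type*} [TopologicalSpace S] [ChartedSpace ℂ S]

lemma curve_in_chart {φ : OpenPartialHomeomorph S ℂ}
    (hφ : φ ∈ IsManifold.maximalAtlas 𝓘(ℝ, ℂ) ∞ S) {c : ℝ → ℂ} (hc : ContDiff ℝ ∞ c)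
    (hd : ∀ t, deriv c t ≠ 0) (hp : ∀ t, c (t + 1) = c t) (hi : InjOn c (Ico 0 1))
    (hs : ∀ t, c t ∈ φ.target) : IsC1Curve (range (fun t => φ.symm (c t))) := by
  have h1 : ContMDiff 𝓘(ℝ, ℝ) 𝓘(ℝ, ℂ) ∞ (fun t => φ.symm (c t)) :=
    (contMDiffOn_symm_of_mem_maximalAtlas hφ).comp_contMDiff hc.contMDiff hs
  refine ⟨fun t => φ.symm (c t), h1.of_le (by simp), ?_, fun t => by simp only [hp], ?_, rfl⟩
  · intro t h0
    have h2 : MDifferentiableAt 𝓘(ℝ, ℝ) 𝓘(ℝ, ℂ) (fun t => φ.symm (c t)) t :=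
      h1.mdifferentiable (by simp) t
    have h3 : MDifferentiableAt 𝓘(ℝ, ℂ) 𝓘(ℝ, ℂ) φ (φ.symm (c t)) :=
      (contMDiffAt_of_mem_maximalAtlas hφ (φ.map_target (hs t))).mdifferentiableAt (by simp)
    have h4 := h3.hasMFDerivAt.comp t h2.hasMFDerivAt
    rw [h0] at h4
    have h5 : (φ ∘ fun t => φ.symm (c t)) = c := by
      funext s
      exact φ.right_inv (hs s)
    rw [h5] at h4
    rw [ContinuousLinearMap.comp_zero] at h4
    have h6 : HasFDerivAt c (0 : ℝ →L[ℝ] ℂ) t := h4.hasFDerivAt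
    apply hd t
    rw [h6.hasDerivAt.deriv]
    rfl
  · intro s hs' t ht h
    exact hi hs' ht (φ.symm.injOn (hs s) (hs t) h)

variable {T : Type*} [TopologicalSpace T] [T2Space T] [ChartedSpace ℂ T]

/-- the expression of a homeomorphism in charts -/
noncomputable def loc (f : S ≃ₜ T) (φ : OpenPartialHomeomorph S ℂ)
    (ψ : OpenPartialHomeomorph T ℂ) : OpenPartialHomeomorph ℂ ℂ :=
  φ.symm.trans (f.toOpenPartialHomeomorph.trans ψ)

omit [ChartedSpace ℂ S] [T2Space T] [ChartedSpace ℂ T] in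
lemma loc_apply (f : S ≃ₜ T) (φ : OpenPartialHomeomorph S ℂ) (ψ : OpenPartialHomeomorph T ℂ)
    (z : ℂ) : loc f φ ψ z = ψ (f (φ.symm z)) := rfl

omit [ChartedSpace ℂ S] [T2Space T] [ChartedSpace ℂ T] in
lemma mem_loc {f : S ≃ₜ T} {φ : OpenPartialHomeomorph S ℂ} {ψ : OpenPartialHomeomorph T ℂ}
    {z : ℂ} : z ∈ (loc f φ ψ).source ↔ z ∈ φ.target ∧ f (φ.symm z) ∈ ψ.source := by
  unfold loc
  simp

/-- differentiability almost everywhere on small segments -/
lemma line {f : S ≃ₜ T} (hf : ∀ Γ : Set S, IsC1Curve Γ → IsC1Curve (f '' Γ))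
    {φ : OpenPartialHomeomorph S ℂ} (hφ : φ ∈ IsManifold.maximalAtlas 𝓘(ℝ, ℂ) ∞ S)
    {ψ : OpenPartialHomeomorph T ℂ} (hψ : ψ ∈ IsManifold.maximalAtlas 𝓘(ℝ, ℂ) ∞ T)
    {z₀ u : ℂ} (hu : ‖u‖ = 1) (hz : z₀ ∈ (loc f φ ψ).source) :
    ∃ δ > 0, ∀ᵐ t : ℝ, t ∈ Ioo (-δ) δ →
      DifferentiableAt ℝ (fun s : ℝ => loc f φ ψ (z₀ + s * u)) t := by
  obtain ⟨R, hR, hball⟩ := Metric.isOpen_iff.1 (loc f φ ψ).open_source z₀ hz
  obtain ⟨B, hB, hcB⟩ := cv_bdd
  obtain ⟨r, hr⟩ : ∃ r, r = R / (2 * (B + 1)) := ⟨_, rfl⟩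
  have hr0 : 0 < r := by rw [hr]; positivity
  have hrR : r * (B + 1) < R := by
    rw [hr]
    have : R / (2 * (B + 1)) * (B + 1) = R / 2 := by field_simp
    linarith
  have hrR' : r < R := by nlinarith
  -- the curve in the plane
  have hmem : ∀ t, z₀ + r * (-Complex.I * u) * (cv t - 1) ∈ (loc f φ ψ).source := by
    intro t
    apply hball
    rw [mem_ball, dist_eq_norm, add_sub_cancel_left, norm_mul, norm_mul, norm_mul, norm_neg,
      Complex.norm_I, hu, Complex.norm_real, Real.norm_eq_abs, abs_of_pos hr0]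
    have := hcB t
    nlinarith
  have hC := curve_in_chart hφ (c := fun t => z₀ + r * (-Complex.I * u) * (cv t - 1))
    (contDiff_const.add (contDiff_const.mul (cv_smooth.sub contDiff_const)))
    (fun t => by
      have h1 : HasDerivAt cv (deriv cv t) t :=
        (cv_smooth.differentiable (by simp) t).hasDerivAt
      have h2 := ((h1.sub_const 1).const_mul ((r : ℂ) * (-Complex.I * u))).const_add z₀
      rw [h2.deriv]
      have hu0 : u ≠ 0 := by
        intro h; rw [h, norm_zero] at hu; exact zero_ne_one hu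
      have hr' : (r : ℂ) ≠ 0 := by exact_mod_cast hr0.ne'
      exact mul_ne_zero (mul_ne_zero hr' (mul_ne_zero (neg_ne_zero.2 Complex.I_ne_zero) hu0))
        (cv_deriv t))
    (fun t => by simp only [cv_per])
    (fun s hs t ht h => by
      have hu0 : u ≠ 0 := by
        intro h; rw [h, norm_zero] at hu; exact zero_ne_one hu
      have hr' : (r : ℂ) ≠ 0 := by exact_mod_cast hr0.ne'
      have h1 : (r : ℂ) * (-Complex.I * u) ≠ 0 :=
        mul_ne_zero hr' (mul_ne_zero (neg_ne_zero.2 Complex.I_ne_zero) hu0)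
      have h2 := mul_left_cancel₀ h1 (add_left_cancel h)
      exact cv_inj hs ht (sub_left_injective h2))
    (fun t => (mem_loc.1 (hmem t)).1)
  obtain ⟨γ, hγ, -, hγp, hγi, hγr⟩ := hf _ hC
  -- the segment
  have hseg : ∀ s ∈ Icc (-r) r, z₀ + (s : ℂ) * u ∈ (loc f φ ψ).source := by
    intro s hs
    apply hball
    rw [mem_ball, dist_eq_norm, add_sub_cancel_left, norm_mul, hu, mul_one, Complex.norm_real,
      Real.norm_eq_abs]
    exact (abs_le.2 hs).trans_lt hrR'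
  have hgr : ∀ s ∈ Icc (-r) r, f (φ.symm (z₀ + (s : ℂ) * u)) ∈ range γ := by
    intro s hs
    rw [← hγr]
    have h1 : |s / r| ≤ 1 := by
      rw [abs_div, abs_of_pos hr0, div_le_one hr0]
      exact abs_le.2 hs
    obtain ⟨t, ht⟩ := cv_seg h1
    refine ⟨_, ⟨t, rfl⟩, ?_⟩
    simp only
    rw [ht]
    congr 2
    have hr' : (r : ℂ) ≠ 0 := by exact_mod_cast hr0.ne'
    push_cast
    rw [add_sub_cancel_left]
    field_simp
    rw [Complex.I_sq]
    ring
  have hcont : ContinuousOn (fun s : ℝ => f (φ.symm (z₀ + (s : ℂ) * u))) (Icc (-r) r) := by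
    apply f.continuous.comp_continuousOn
    apply φ.continuousOn_symm.comp (by fun_prop)
    intro s hs
    exact (mem_loc.1 (hseg s hs)).1
  have hinj : InjOn (fun s : ℝ => f (φ.symm (z₀ + (s : ℂ) * u))) (Icc (-r) r) := by
    intro s hs t ht h
    have h1 := φ.symm.injOn (mem_loc.1 (hseg s hs)).1 (mem_loc.1 (hseg t ht)).1
      (f.injective h)
    have hu0 : u ≠ 0 := by
      intro h; rw [h, norm_zero] at hu; exact zero_ne_one hu
    exact_mod_cast mul_right_cancel₀ hu0 (add_left_cancel h1)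
  obtain ⟨δ, hδ, H⟩ := lift_local hγ.continuous hγp hγi hcont hinj hgr (t₀ := 0)
    ⟨by linarith, hr0⟩
  refine ⟨min δ r, lt_min hδ hr0, ?_⟩
  filter_upwards [H] with t ht ht'
  have htδ : t ∈ Ioo (0 - δ) (0 + δ) := by
    constructor
    · have := min_le_left δ r; linarith [ht'.1]
    · have := min_le_left δ r; linarith [ht'.2]
  have htr : t ∈ Ioo (-r) r := by
    constructor
    · have := min_le_right δ r; linarith [ht'.1]
    · have := min_le_right δ r; linarith [ht'.2]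
  obtain ⟨θ, hθ, hev⟩ := ht htδ
  have h1 := hev.self_of_nhds
  have h2 : γ (θ t) ∈ ψ.source := by
    rw [← h1]
    exact (mem_loc.1 (hseg t ⟨htr.1.le, htr.2.le⟩)).2
  have h3 : MDifferentiableAt 𝓘(ℝ, ℂ) 𝓘(ℝ, ℂ) ψ (γ (θ t)) :=
    (contMDiffAt_of_mem_maximalAtlas hψ h2).mdifferentiableAt (by simp)
  have h4 : MDifferentiableAt 𝓘(ℝ, ℝ) 𝓘(ℝ, ℂ) (ψ ∘ γ) (θ t) :=
    h3.comp (θ t) (hγ.mdifferentiable (by simp) (θ t))
  have h5 : DifferentiableAt ℝ (fun s => ψ (γ (θ s))) t :=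
    (mdifferentiableAt_iff_differentiableAt.1 h4).comp t hθ
  refine h5.congr_of_eventuallyEq ?_
  filter_upwards [hev] with s hs
  rw [loc_apply, ← hs]

end Pool.Agent.K6.H11.GL
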