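import Mathlib
import Pool.Agent.K6.H11.GL.Surface

/-!
# The non-differentiable set of a homeomorphism which preserves `C¹` curves is a null set
-/

set_option autoImplicit false

open Set Filter Topology MeasureTheory Metric R789.C1
open scoped ENNReal Manifold ContDiff

namespace Pool.Agent.K6.H11.GL

/-- the identification of `ℝ × ℝ` with `ℂ` -/
noncomputable def κ : (ℝ × ℝ) ≃L[ℝ] ℂ := Complex.equivRealProdCLM.symm

lemma κ_apply (p : ℝ × ℝ) : κ p = (p.1 : ℂ) + p.2 * Complex.I := by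
  unfold κ
  rw [Complex.equivRealProdCLM_symm_apply]

lemma κ_symm (z : ℂ) : κ.symm z = (z.re, z.im) := rfl

lemma κ_meas : MeasurePreserving (fun z : ℂ => κ.symm z) volume volume :=
  Complex.volume_preserving_equiv_real_prod

variable {S : Type*} [TopologicalSpace S] [ChartedSpace ℂ S]
variable {T : Type*} [TopologicalSpace T] [T2Space T] [ChartedSpace ℂ T]

/-- clamping -/
noncomputable def cl (x s t : ℝ) : ℝ := max (x - s) (min t (x + s))

lemma cl_cont (x s : ℝ) : Continuous (cl x s) := by unfold cl; fun_prop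

lemma cl_mem {x s : ℝ} (hs : 0 < s) (t : ℝ) : |cl x s t - x| ≤ s := by
  unfold cl
  rw [abs_le]
  constructor
  · have := le_max_left (x - s) (min t (x + s)); linarith
  · have : max (x - s) (min t (x + s)) ≤ x + s :=
      max_le (by linarith) (min_le_right _ _)
    linarith

lemma cl_eq {x s t : ℝ} (h : |t - x| ≤ s) : cl x s t = t := by
  rw [abs_le] at h
  unfold cl
  rw [min_eq_left (by linarith), max_eq_right (by linarith)]

/-- the expression in charts is locally differentiable almost everywhere -/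
lemma chart_ae {f : S ≃ₜ T} (hf : ∀ Γ : Set S, IsC1Curve Γ → IsC1Curve (f '' Γ))
    {φ : OpenPartialHomeomorph S ℂ} (hφ : φ ∈ IsManifold.maximalAtlas 𝓘(ℝ, ℂ) ∞ S)
    {ψ : OpenPartialHomeomorph T ℂ} (hψ : ψ ∈ IsManifold.maximalAtlas 𝓘(ℝ, ℂ) ∞ T)
    {z₀ : ℂ} (hz : z₀ ∈ (loc f φ ψ).source) :
    ∃ V ∈ 𝓝 z₀, volume {z | z ∈ V ∧ ¬ DifferentiableAt ℝ (loc f φ ψ) z} = 0 := by
  obtain ⟨e, he⟩ : ∃ e, e = loc f φ ψ := ⟨_, rfl⟩
  rw [← he] at hz ⊢
  obtain ⟨R, hR, hball⟩ := Metric.isOpen_iff.1 e.open_source z₀ hz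
  obtain ⟨s, hs⟩ : ∃ s, s = R / 3 := ⟨_, rfl⟩
  have hs0 : 0 < s := by rw [hs]; positivity
  -- the square
  have hsq : ∀ x y : ℝ, |x - z₀.re| ≤ s → |y - z₀.im| ≤ s → κ (x, y) ∈ e.source := by
    intro x y hx hy
    apply hball
    rw [mem_ball, dist_eq_norm]
    refine (Complex.norm_le_abs_re_add_abs_im _).trans_lt ?_
    have h1 : (κ (x, y) - z₀).re = x - z₀.re := by rw [κ_apply]; simp
    have h2 : (κ (x, y) - z₀).im = y - z₀.im := by rw [κ_apply]; simp
    rw [h1, h2]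
    linarith
  obtain ⟨G, hG⟩ : ∃ G : ℝ × ℝ → ℂ, G = fun p => e (κ (cl z₀.re s p.1, cl z₀.im s p.2)) :=
    ⟨_, rfl⟩
  have hGc : Continuous G := by
    rw [hG]
    apply e.continuousOn.comp_continuous
    · exact κ.continuous.comp (((cl_cont _ _).comp continuous_fst).prodMk
        ((cl_cont _ _).comp continuous_snd))
    · intro p
      exact hsq _ _ (cl_mem hs0 _) (cl_mem hs0 _)
  obtain ⟨U, hU⟩ : ∃ U : Set (ℝ × ℝ), U = {p | |p.1 - z₀.re| < s ∧ |p.2 - z₀.im| < s} := ⟨_, rfl⟩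
  have hUo : IsOpen U := by
    rw [hU]
    exact (isOpen_lt (f := fun p : ℝ × ℝ => |p.1 - z₀.re|) (g := fun _ => s) (by fun_prop)
      continuous_const).inter (isOpen_lt (f := fun p : ℝ × ℝ => |p.2 - z₀.im|) (g := fun _ => s)
        (by fun_prop) continuous_const)
  have hGU : ∀ p ∈ U, G p = e (κ p) := by
    intro p hp
    rw [hU] at hp
    rw [hG]
    simp only
    rw [cl_eq hp.1.le, cl_eq hp.2.le]
  -- the maximum principle
  have hmax : MaxP G U := by
    refine maxP_of_homeo (κ.toHomeomorph.toOpenPartialHomeomorph.trans e) ?_ hGU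
    intro p hp
    rw [hU] at hp
    simp only [OpenPartialHomeomorph.trans_source, Homeomorph.toOpenPartialHomeomorph_source,
      univ_inter, mem_preimage, Homeomorph.toOpenPartialHomeomorph_apply]
    exact hsq p.1 p.2 hp.1.le hp.2.le
  -- vertical lines
  have hv : ∀ x : ℝ, ∀ᵐ y : ℝ, (x, y) ∈ U → DifferentiableAt ℝ (fun t => G (x, t)) y := by
    intro x
    rw [ae_iff]
    apply measure_null_of_locally_null
    intro y hy
    simp only [mem_ofPred_eq, Classical.not_imp] at hy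
    have hxy : κ (x, y) ∈ e.source := by
      have := hy.1
      rw [hU] at this
      exact hsq _ _ this.1.le this.2.le
    rw [he] at hxy
    obtain ⟨δ, hδ, H⟩ := line hf hφ hψ Complex.norm_I hxy
    rw [← he] at H
    have H2 : ∀ᵐ t : ℝ, t - y ∈ Ioo (-δ) δ →
        DifferentiableAt ℝ (fun s : ℝ => e (κ (x, y) + s * Complex.I)) (t - y) :=
      (measurePreserving_sub_right (volume : Measure ℝ) y).quasiMeasurePreserving.ae H
    refine ⟨_, inter_mem self_mem_nhdsWithin (mem_nhdsWithin_of_mem_nhds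
      (Ioo_mem_nhds (sub_lt_self y hδ) (lt_add_of_pos_right y hδ))), ?_⟩
    refine measure_mono_null ?_ (ae_iff.1 H2)
    rintro t ⟨ht1, ht2⟩
    simp only [mem_ofPred_eq, Classical.not_imp] at ht1 ⊢
    refine ⟨⟨by linarith [ht2.1], by linarith [ht2.2]⟩, fun h => ht1.2 ?_⟩
    have h2 : DifferentiableAt ℝ (fun r : ℝ => e (κ (x, y) + ((r - y : ℝ) : ℂ) * Complex.I)) t :=
      DifferentiableAt.comp t (g := fun s : ℝ => e (κ (x, y) + s * Complex.I))
        (f := fun r => r - y) h (by fun_prop)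
    refine h2.congr_of_eventuallyEq ?_
    have h3 : ∀ᶠ r in 𝓝 t, (x, r) ∈ U :=
      (Continuous.tendsto (by fun_prop : Continuous fun r : ℝ => (x, r)) t).eventually
        (hUo.mem_nhds ht1.1)
    filter_upwards [h3] with r hr
    rw [hGU _ hr]
    congr 1
    rw [κ_apply, κ_apply]
    push_cast
    ring
  -- horizontal lines
  have hh : ∀ y : ℝ, ∀ᵐ x : ℝ, (x, y) ∈ U → DifferentiableAt ℝ (fun t => G (t, y)) x := by
    intro y
    rw [ae_iff]
    apply measure_null_of_locally_null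
    intro x hx
    simp only [mem_ofPred_eq, Classical.not_imp] at hx
    have hxy : κ (x, y) ∈ e.source := by
      have := hx.1
      rw [hU] at this
      exact hsq _ _ this.1.le this.2.le
    rw [he] at hxy
    obtain ⟨δ, hδ, H⟩ := line hf hφ hψ norm_one hxy
    rw [← he] at H
    have H2 : ∀ᵐ t : ℝ, t - x ∈ Ioo (-δ) δ →
        DifferentiableAt ℝ (fun s : ℝ => e (κ (x, y) + s * 1)) (t - x) :=
      (measurePreserving_sub_right (volume : Measure ℝ) x).quasiMeasurePreserving.ae H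
    refine ⟨_, inter_mem self_mem_nhdsWithin (mem_nhdsWithin_of_mem_nhds
      (Ioo_mem_nhds (sub_lt_self x hδ) (lt_add_of_pos_right x hδ))), ?_⟩
    refine measure_mono_null ?_ (ae_iff.1 H2)
    rintro t ⟨ht1, ht2⟩
    simp only [mem_ofPred_eq, Classical.not_imp] at ht1 ⊢
    refine ⟨⟨by linarith [ht2.1], by linarith [ht2.2]⟩, fun h => ht1.2 ?_⟩
    have h2 : DifferentiableAt ℝ (fun r : ℝ => e (κ (x, y) + ((r - x : ℝ) : ℂ) * 1)) t :=
      DifferentiableAt.comp t (g := fun s : ℝ => e (κ (x, y) + s * 1))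
        (f := fun r => r - x) h (by fun_prop)
    refine h2.congr_of_eventuallyEq ?_
    have h3 : ∀ᶠ r in 𝓝 t, (r, y) ∈ U :=
      (Continuous.tendsto (by fun_prop : Continuous fun r : ℝ => (r, y)) t).eventually
        (hUo.mem_nhds ht1.1)
    filter_upwards [h3] with r hr
    rw [hGU _ hr]
    congr 1
    rw [κ_apply, κ_apply]
    push_cast
    ring
  have hmain := main hGc hUo hmax (ae_hor hGc hUo hh) (ae_vert hGc hUo hv)
  have hmain2 : ∀ᵐ z : ℂ, κ.symm z ∈ U → DifferentiableAt ℝ G (κ.symm z) :=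
    κ_meas.quasiMeasurePreserving.ae hmain
  refine ⟨κ.symm ⁻¹' U, ?_, ?_⟩
  · apply (hUo.preimage κ.symm.continuous).mem_nhds
    rw [mem_preimage, κ_symm, hU]
    simpa using hs0
  · refine measure_mono_null ?_ (ae_iff.1 hmain2)
    rintro z ⟨hz1, hz2⟩
    simp only [mem_ofPred_eq, Classical.not_imp]
    refine ⟨hz1, fun h => hz2 ?_⟩
    have h1 : DifferentiableAt ℝ (fun w => G (κ.symm w)) z :=
      h.comp z κ.symm.differentiableAt
    refine h1.congr_of_eventuallyEq ?_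
    have h3 : ∀ᶠ w in 𝓝 z, κ.symm w ∈ U :=
      (κ.symm.continuous.tendsto z).eventually (hUo.mem_nhds hz1)
    filter_upwards [h3] with w hw
    rw [hGU _ hw, κ.apply_symm_apply]

/-- **The non-differentiable set is a null set.** -/
theorem null {f : S ≃ₜ T} [IsManifold 𝓘(ℝ, ℂ) ∞ T]
    (hf : ∀ Γ : Set S, IsC1Curve Γ → IsC1Curve (f '' Γ))
    {φ : OpenPartialHomeomorph S ℂ} (hφ : φ ∈ IsManifold.maximalAtlas 𝓘(ℝ, ℂ) ∞ S) :
    volume (φ '' (φ.source ∩ {p | ¬ MDifferentiableAt 𝓘(ℝ, ℂ) 𝓘(ℝ, ℂ) f p})) = 0 := by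
  apply measure_null_of_locally_null
  rintro z ⟨p, ⟨hp, -⟩, rfl⟩
  have hψ : chartAt ℂ (f p) ∈ IsManifold.maximalAtlas 𝓘(ℝ, ℂ) ∞ T :=
    IsManifold.chart_mem_maximalAtlas (f p)
  have hz : φ p ∈ (loc f φ (chartAt ℂ (f p))).source := by
    rw [mem_loc, φ.left_inv hp]
    exact ⟨φ.map_source hp, mem_chart_source ℂ (f p)⟩
  obtain ⟨V, hV, hV0⟩ := chart_ae hf hφ hψ hz
  refine ⟨_, inter_mem self_mem_nhdsWithin (mem_nhdsWithin_of_mem_nhds (inter_mem hV
    ((loc f φ (chartAt ℂ (f p))).open_source.mem_nhds hz))), ?_⟩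
  refine measure_mono_null ?_ hV0
  rintro w ⟨⟨q, ⟨hq, hqn⟩, rfl⟩, hw1, hw2⟩
  refine ⟨hw1, fun h => hqn ?_⟩
  -- `f` is differentiable at `q`
  have h1 : MDifferentiableAt 𝓘(ℝ, ℂ) 𝓘(ℝ, ℂ) φ q :=
    (contMDiffAt_of_mem_maximalAtlas hφ hq).mdifferentiableAt (by simp)
  have h2 : MDifferentiableAt 𝓘(ℝ, ℂ) 𝓘(ℝ, ℂ) (loc f φ (chartAt ℂ (f p))) (φ q) :=
    mdifferentiableAt_iff_differentiableAt.2 h
  have h3 : loc f φ (chartAt ℂ (f p)) (φ q) ∈ (chartAt ℂ (f p)).target := by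
    rw [loc_apply]
    exact (chartAt ℂ (f p)).map_source (mem_loc.1 hw2).2
  have h4 : MDifferentiableAt 𝓘(ℝ, ℂ) 𝓘(ℝ, ℂ) (chartAt ℂ (f p)).symm
      (loc f φ (chartAt ℂ (f p)) (φ q)) :=
    ((contMDiffOn_symm_of_mem_maximalAtlas hψ).contMDiffAt
      ((chartAt ℂ (f p)).open_target.mem_nhds h3)).mdifferentiableAt (by simp)
  have h5 := (h4.comp (φ q) h2).comp q h1
  refine h5.congr_of_eventuallyEq ?_
  have h6 : ∀ᶠ x in 𝓝 q, x ∈ φ.source ∧ φ x ∈ (loc f φ (chartAt ℂ (f p))).source :=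
    (φ.open_source.eventually_mem hq).and
      ((φ.continuousAt hq).eventually ((loc f φ (chartAt ℂ (f p))).open_source.mem_nhds hw2))
  filter_upwards [h6] with x hx
  simp only [Function.comp_apply]
  rw [loc_apply, φ.left_inv hx.1, (chartAt ℂ (f p)).left_inv]
  have := (mem_loc.1 hx.2).2
  rwa [φ.left_inv hx.1] at this

end Pool.Agent.K6.H11.GL
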